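import Pool.Agent.R580.Googol2

set_option autoImplicit false

/-!
# The game of googol with polynomially many values

The instance: draw a scale `t` from `{n, …, N}` with probability proportional to `1/(t+1)`, then
draw a uniformly random `n`-element subset of `{1, …, t}`. Given the values seen so far, the
information about the scale is (up to boundary effects) scale invariant, so the values do not help.

Definitions used in the statement (from `Pool.Agent.R580.Googol`):
`winProb n N D A` is the probability that the online algorithm `A` stops on the largest element of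
the `n`-element subset `S` of `{1, …, N}` drawn from `D`, if the elements arrive in uniformly random
order; `A (x :: past)` is the probability that `A` stops on the value `x` if it has not stopped
on the earlier values `past` (listed with the most recent first).
-/

open Finset Pool.Agent.R580.Googol

namespace Pool.Agent.Results.MP_d38296_lc.PolynomialValues

/-- There is an instance on the `n`-element subsets of `{1, …, N}` under which no online (cardinal,
randomized) algorithm wins with probability greater than `1/e + ε`. -/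
def NoAdvantage (n N : ℕ) (ε : ℝ) : Prop :=
  ∃ D : Finset ℕ → ℝ, (∀ S, 0 ≤ D S) ∧ ∑ S ∈ (Icc 1 N).powersetCard n, D S = 1 ∧
    ∀ A : List ℕ → ℝ, (∀ l, 0 ≤ A l ∧ A l ≤ 1) → winProb n N D A ≤ 1 / Real.exp 1 + ε

theorem noAdvantage_explicit {n N : ℕ} (hn : 1 ≤ n) (hnN : n ≤ N) :
    NoAdvantage n N (1 / n + 3 / Real.log (((N : ℝ) + 2) / ((n : ℝ) + 1))) := by
  refine ⟨DD n N, DD_nonneg hnN, DD_sum hnN, fun A hA => ?_⟩
  have := winProb_bound hn hnN hA
  linarith

theorem NoAdvantage.mono {n N : ℕ} {ε δ : ℝ} (h : NoAdvantage n N ε) (hd : ε ≤ δ) :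
    NoAdvantage n N δ := by
  obtain ⟨D, h1, h2, h3⟩ := h
  exact ⟨D, h1, h2, fun A hA => (h3 A hA).trans (by linarith)⟩

theorem noAdvantage_of_le {n N : ℕ} {ε : ℝ} (hε : 0 < ε) (hn : 2 / ε ≤ n)
    (hN : 2 * Real.exp (6 / ε) * n ≤ N) : NoAdvantage n N ε := by
  have h2 : 0 < 2 / ε := by positivity
  have hn0 : (0 : ℝ) < n := h2.trans_le hn
  have hn1 : 1 ≤ n := by exact_mod_cast hn0
  have hn1' : (1 : ℝ) ≤ n := by exact_mod_cast hn1
  have he : 1 ≤ Real.exp (6 / ε) := Real.one_le_exp (by positivity)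
  have hnN : n ≤ N := by
    have h3 : (n : ℝ) ≤ N := by
      refine le_trans ?_ hN
      nlinarith
    exact_mod_cast h3
  refine (noAdvantage_explicit hn1 hnN).mono ?_
  have h4 : 1 / (n : ℝ) ≤ ε / 2 := by
    rw [div_le_div_iff₀ hn0 (by norm_num)]
    rw [div_le_iff₀ hε] at hn
    linarith
  have h5 : Real.exp (6 / ε) ≤ ((N : ℝ) + 2) / ((n : ℝ) + 1) := by
    rw [le_div_iff₀ (by positivity)]
    nlinarith
  have h6 : 6 / ε ≤ Real.log (((N : ℝ) + 2) / ((n : ℝ) + 1)) := by
    rw [Real.le_log_iff_exp_le (by positivity)]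
    exact h5
  have h7 : 3 / Real.log (((N : ℝ) + 2) / ((n : ℝ) + 1)) ≤ ε / 2 := by
    have h8 : (0 : ℝ) < 6 / ε := by positivity
    rw [div_le_div_iff₀ (h8.trans_le h6) (by norm_num)]
    rw [div_le_iff₀ hε] at h6
    linarith
  linarith

/-- **Theorem.** The cardinal complexity of the game of googol is polynomial (even linear in `n`
for fixed `ε`). -/
theorem result :
    -- Q1, with the polynomial `p(x, y) = x²`
    (∃ p : MvPolynomial (Fin 2) ℝ, ∀ ε : ℝ, 0 < ε → ε < 1 → ∃ n₀ : ℕ, ∀ n : ℕ, n₀ ≤ n →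
      ∃ N : ℕ, n ≤ N ∧ (N : ℝ) ≤ MvPolynomial.eval ![(n : ℝ), 1 / ε] p ∧ NoAdvantage n N ε) ∧
    -- `N = K n` values suffice, where `K` depends on `ε` only
    (∀ ε : ℝ, 0 < ε → ∀ n N : ℕ, 2 / ε ≤ n → 2 * Real.exp (6 / ε) * n ≤ N →
      NoAdvantage n N ε) ∧
    -- an explicit bound for all `n` and `N`
    (∀ n N : ℕ, 1 ≤ n → n ≤ N →
      NoAdvantage n N (1 / n + 3 / Real.log (((N : ℝ) + 2) / ((n : ℝ) + 1)))) := by
  refine ⟨⟨MvPolynomial.X 0 ^ 2, ?_⟩, fun ε hε n N hn hN => noAdvantage_of_le hε hn hN,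
    fun n N hn hnN => noAdvantage_explicit hn hnN⟩
  intro ε hε _
  refine ⟨⌈2 * Real.exp (6 / ε) + 2 / ε⌉₊ + 1, fun n hn => ⟨n ^ 2, ?_, ?_, ?_⟩⟩
  · nlinarith
  · simp
  · have h1 : 2 * Real.exp (6 / ε) + 2 / ε ≤ n := by
      refine (Nat.le_ceil _).trans ?_
      exact_mod_cast (by omega : ⌈2 * Real.exp (6 / ε) + 2 / ε⌉₊ ≤ n)
    have h2 : 0 < 2 / ε := by positivity
    have h3 : 0 < Real.exp (6 / ε) := Real.exp_pos _
    refine noAdvantage_of_le hε (by linarith) ?_
    push_cast
    have h4 : (0 : ℝ) ≤ n := Nat.cast_nonneg n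
    nlinarith

end Pool.Agent.Results.MP_d38296_lc.PolynomialValues
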